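import Pool.Agent.H41.CL.Defs2

set_option autoImplicit false

/-! # The mean number of bad pairs of a random configuration (for MP_76d27f_co, helper41) -/

namespace Pool.Agent.H331.CL

open Finset Pool.Agent.H41.CL

/-- The number of bijections which agree with a given one on a set of positions. -/
theorem card_agree {Q P : Type*} [Fintype Q] [DecidableEq Q] [Fintype P] [DecidableEq P]
    (S : Finset Q) (τ0 : Q ≃ P) :
    (univ.filter (fun τ : Q ≃ P => ∀ a ∈ S, τ a = τ0 a)).card
      = (Fintype.card Q - S.card).factorial := by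
  classical
  have h1 : (univ.filter (fun τ : Q ≃ P => ∀ a ∈ S, τ a = τ0 a)).card
      = Fintype.card {σ : Equiv.Perm Q // ∀ a, ¬ (a ∉ S) → σ a = a} := by
    rw [← Fintype.card_subtype]
    refine Fintype.card_congr
      { toFun := fun τ => ⟨τ.1.trans τ0.symm, fun a ha => ?_⟩
        invFun := fun σ => ⟨σ.1.trans τ0, fun a ha => ?_⟩
        left_inv := fun τ => ?_
        right_inv := fun σ => ?_ }
    · have := τ.2 a (not_not.1 ha)
      simp [this]
    · have := σ.2 a (not_not.2 ha)
      simp [this]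
    · apply Subtype.ext
      ext a
      simp
    · apply Subtype.ext
      ext a
      simp
  rw [h1, ← Fintype.card_congr (Equiv.Perm.subtypeEquivSubtypePerm (fun a => a ∉ S)),
    Fintype.card_perm]
  congr 1
  rw [Fintype.card_subtype, ← Finset.card_compl]
  congr 1
  ext a
  simp

/-- An upper bound for the number of bijections with prescribed values on `S`. -/
theorem card_presc {Q P : Type*} [Fintype Q] [DecidableEq Q] [Fintype P] [DecidableEq P]
    (S : Finset Q) (g : Q → P) :
    (univ.filter (fun τ : Q ≃ P => ∀ a ∈ S, τ a = g a)).card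
      ≤ (Fintype.card Q - S.card).factorial := by
  classical
  rcases (univ.filter (fun τ : Q ≃ P => ∀ a ∈ S, τ a = g a)).eq_empty_or_nonempty with h | h
  · rw [h]
    simp
  · obtain ⟨τ0, h0⟩ := h
    have h0' : ∀ a ∈ S, τ0 a = g a := by simpa using h0
    rw [← card_agree S τ0]
    refine Finset.card_le_card fun τ hτ => ?_
    simp only [mem_filter, mem_univ, true_and] at hτ ⊢
    intro a ha
    rw [hτ a ha, h0' a ha]

/-- the position which is paired with a position -/
def fl {k : ℕ} (q : Q k) : Q k := (q.1, !q.2)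

theorem card_Q (k : ℕ) : Fintype.card (Q k) = 6 * k := by
  simp [Q]
  ring

theorem card_P3 (k : ℕ) : Fintype.card (P k × Fin 3) = 18 * k := by
  simp [P]
  ring

theorem count2 {k : ℕ} (q q2 : Q k) (h : q ≠ q2) :
    (univ.filter (fun τ : Q k ≃ P k => (τ q).1 = (τ q2).1)).card
      ≤ (18 * k) * (6 * k - 2).factorial := by
  classical
  have hsub : (univ.filter (fun τ : Q k ≃ P k => (τ q).1 = (τ q2).1))
      ⊆ (univ : Finset (P k × Fin 3)).biUnion (fun z => univ.filter (fun τ : Q k ≃ P k =>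
        ∀ a ∈ ({q, q2} : Finset (Q k)), τ a = (if a = q then z.1 else (z.1.1, z.2)))) := by
    intro τ hτ
    simp only [mem_filter, mem_univ, true_and] at hτ
    simp only [mem_biUnion, mem_filter, mem_univ, true_and]
    refine ⟨(τ q, (τ q2).2), ?_⟩
    intro a ha
    simp only [mem_insert, mem_singleton] at ha
    rcases ha with rfl | rfl
    · simp
    · rw [if_neg (Ne.symm h), hτ]
  refine (Finset.card_le_card hsub).trans ?_
  refine (Finset.card_biUnion_le_card_mul _ _ (6 * k - 2).factorial ?_).trans ?_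
  · intro z _
    refine (card_presc _ _).trans ?_
    rw [card_Q, Finset.card_pair h]
  · rw [Finset.card_univ, card_P3]

theorem count4 {k : ℕ} (q q2 q3 q4 : Q k) (h : ({q, q2, q3, q4} : Finset (Q k)).card = 4)
    (h12 : q ≠ q2) (h13 : q ≠ q3) (h14 : q ≠ q4) (h23 : q2 ≠ q3) (h24 : q2 ≠ q4) (h34 : q3 ≠ q4) :
    (univ.filter (fun τ : Q k ≃ P k => (τ q).1 = (τ q2).1 ∧ (τ q3).1 = (τ q4).1)).card
      ≤ (18 * k) * (18 * k) * (6 * k - 4).factorial := by
  classical
  have hsub : (univ.filter (fun τ : Q k ≃ P k => (τ q).1 = (τ q2).1 ∧ (τ q3).1 = (τ q4).1))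
      ⊆ (univ : Finset ((P k × Fin 3) × (P k × Fin 3))).biUnion (fun z => univ.filter
        (fun τ : Q k ≃ P k => ∀ a ∈ ({q, q2, q3, q4} : Finset (Q k)), τ a =
          (if a = q then z.1.1 else if a = q2 then (z.1.1.1, z.1.2) else
            if a = q3 then z.2.1 else (z.2.1.1, z.2.2)))) := by
    intro τ hτ
    simp only [mem_filter, mem_univ, true_and] at hτ
    simp only [mem_biUnion, mem_filter, mem_univ, true_and]
    refine ⟨((τ q, (τ q2).2), (τ q3, (τ q4).2)), ?_⟩
    intro a ha
    simp only [mem_insert, mem_singleton] at ha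
    rcases ha with rfl | rfl | rfl | rfl
    · simp
    · rw [if_neg (Ne.symm h12), if_pos rfl, hτ.1]
    · rw [if_neg (Ne.symm h13), if_neg (Ne.symm h23), if_pos rfl]
    · rw [if_neg (Ne.symm h14), if_neg (Ne.symm h24), if_neg (Ne.symm h34), hτ.2]
  refine (Finset.card_le_card hsub).trans ?_
  refine (Finset.card_biUnion_le_card_mul _ _ (6 * k - 4).factorial ?_).trans ?_
  · intro z _
    refine (card_presc _ _).trans ?_
    rw [card_Q, h]
  · rw [Finset.card_univ, Fintype.card_prod, card_P3]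

/-- bad pairs in terms of the positions -/
theorem bad_eq {k : ℕ} (τ : Q k ≃ P k) : bad τ = (univ.filter (fun y : Q k × Q k =>
    y.1 ≠ y.2 ∧ (τ y.1).1 = (τ y.2).1 ∧ (τ (fl y.1)).1 = (τ (fl y.2)).1)).card := by
  unfold bad
  symm
  refine Finset.card_bij (fun y _ => (τ y.1, τ y.2)) ?_ ?_ ?_
  · intro y hy
    simp only [mem_filter, mem_univ, true_and] at hy ⊢
    refine ⟨fun h => hy.1 (τ.injective h), hy.2.1, ?_⟩
    simpa [mate, fl] using hy.2.2
  · intro y _ z _ h
    simp only [Prod.mk.injEq, EmbeddingLike.apply_eq_iff_eq] at h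
    exact Prod.ext h.1 h.2
  · intro x hx
    simp only [mem_filter, mem_univ, true_and] at hx
    refine ⟨(τ.symm x.1, τ.symm x.2), ?_, by simp⟩
    simp only [mem_filter, mem_univ, true_and]
    refine ⟨fun h => hx.1 (τ.symm.injective h), by simpa using hx.2.1, ?_⟩
    simpa [mate, fl] using hx.2.2

theorem fl_ne {k : ℕ} (q : Q k) : fl q ≠ q := by
  intro h
  have := congrArg Prod.snd h
  simp [fl] at this

theorem fl_fl {k : ℕ} (q : Q k) : fl (fl q) = q := by
  simp [fl]

theorem count {k : ℕ} (y : Q k × Q k) :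
    (univ.filter (fun τ : Q k ≃ P k => y.1 ≠ y.2 ∧ (τ y.1).1 = (τ y.2).1 ∧
      (τ (fl y.1)).1 = (τ (fl y.2)).1)).card
      ≤ (if y.2 = fl y.1 then (18 * k) * (6 * k - 2).factorial else 0)
        + (18 * k) * (18 * k) * (6 * k - 4).factorial := by
  classical
  obtain ⟨q, q2⟩ := y
  by_cases h : q = q2
  · subst h
    simp
  · by_cases h2 : q2 = fl q
    · rw [if_pos h2]
      refine le_trans (le_trans (Finset.card_le_card ?_) (count2 q q2 h)) (Nat.le_add_right _ _)
      intro τ hτ
      simp only [mem_filter, mem_univ, true_and] at hτ ⊢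
      exact hτ.2.1
    · rw [if_neg h2, zero_add]
      have e13 : q ≠ fl q := (fl_ne q).symm
      have e24 : q2 ≠ fl q2 := (fl_ne q2).symm
      have e14 : q ≠ fl q2 := by
        intro h3
        apply h2
        rw [h3, fl_fl]
      have e34 : fl q ≠ fl q2 := by
        intro h3
        apply h
        rw [← fl_fl q, h3, fl_fl]
      have hc : ({q, q2, fl q, fl q2} : Finset (Q k)).card = 4 := by
        rw [Finset.card_insert_of_notMem, Finset.card_insert_of_notMem, Finset.card_pair e34]
        · simp only [mem_insert, mem_singleton, not_or]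
          exact ⟨h2, e24⟩
        · simp only [mem_insert, mem_singleton, not_or]
          exact ⟨h, e13, e14⟩
      refine le_trans (Finset.card_le_card ?_)
        (count4 q q2 (fl q) (fl q2) hc h e13 e14 h2 e24 e34)
      intro τ hτ
      simp only [mem_filter, mem_univ, true_and] at hτ ⊢
      exact ⟨hτ.2.1, hτ.2.2⟩

theorem arith (j F : ℕ) :
    (6 * (j + 1)) * ((18 * (j + 1)) * ((6 * j + 4) * ((6 * j + 3) * F)))
      + (6 * (j + 1)) * (6 * (j + 1)) * ((18 * (j + 1)) * (18 * (j + 1)) * F)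
      ≤ 37 * ((6 * j + 6) * ((6 * j + 5) * ((6 * j + 4) * ((6 * j + 3) * F)))) := by
  have h : 37 * ((6 * j + 6) * ((6 * j + 5) * ((6 * j + 4) * ((6 * j + 3) * F))))
      = ((6 * (j + 1)) * ((18 * (j + 1)) * ((6 * j + 4) * ((6 * j + 3) * F)))
      + (6 * (j + 1)) * (6 * (j + 1)) * ((18 * (j + 1)) * (18 * (j + 1)) * F))
      + (32400 * j ^ 4 + 84888 * j ^ 3 + 74268 * j ^ 2 + 22140 * j + 360) * F := by
    ring
  rw [h]
  exact Nat.le_add_right _ _

/-- **MEAN** -/
theorem t_MEAN : Pool.Agent.H41.CL.S_MEAN := by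
  classical
  refine ⟨37, 1, fun k hk => ?_⟩
  have h1 : ∑ τ : Q k ≃ P k, bad τ = ∑ y : Q k × Q k, (univ.filter (fun τ : Q k ≃ P k =>
      y.1 ≠ y.2 ∧ (τ y.1).1 = (τ y.2).1 ∧ (τ (fl y.1)).1 = (τ (fl y.2)).1)).card := by
    simp_rw [bad_eq, Finset.card_filter]
    rw [Finset.sum_comm]
  rw [h1]
  refine (Finset.sum_le_sum fun y _ => count y).trans ?_
  rw [Finset.sum_add_distrib, Finset.sum_const, Finset.card_univ, Fintype.sum_prod_type,
    Fintype.card_prod, card_Q]
  simp only [Finset.sum_ite_eq', Finset.mem_univ, if_true, Finset.sum_const, Finset.card_univ,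
    card_Q, smul_eq_mul]
  obtain ⟨j, rfl⟩ : ∃ j, k = j + 1 := ⟨k - 1, by omega⟩
  have e1 : 6 * (j + 1) - 2 = (6 * j + 3) + 1 := by omega
  have e2 : 6 * (j + 1) - 4 = 6 * j + 2 := by omega
  have e3 : 6 * (j + 1) = (6 * j + 5) + 1 := by omega
  have f1 : (6 * (j + 1) - 2).factorial = (6 * j + 4) * ((6 * j + 3) * (6 * j + 2).factorial) := by
    rw [e1, Nat.factorial_succ, show 6 * j + 3 = (6 * j + 2) + 1 by omega, Nat.factorial_succ]
  have f2 : (6 * (j + 1)).factorial = (6 * j + 6) * ((6 * j + 5) *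
      ((6 * j + 4) * ((6 * j + 3) * (6 * j + 2).factorial))) := by
    rw [e3, Nat.factorial_succ, show 6 * j + 5 = (6 * j + 4) + 1 by omega, Nat.factorial_succ,
      show 6 * j + 4 = (6 * j + 3) + 1 by omega, Nat.factorial_succ,
      show 6 * j + 3 = (6 * j + 2) + 1 by omega, Nat.factorial_succ]
  rw [f1, e2, f2]
  exact arith j _

end Pool.Agent.H331.CL
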